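import Pool.Agent.NegOr.Sharp

/-!
Monotone circuits of size `S` whose equivalent formulas of depth `D` need `S / poly(D)` NOT gates.
-/

namespace Pool.Agent.Results.MP_7713c5_lc.FormulaNotGates

open Pool.Agent.BoolCirc

/-- There is a constant `A` such that for every `S ≥ 2` and every real `D ≥ log₂ S` there is a
circuit `M` with at most `S` gates and no NOT gates such that every equivalent formula of depth at
most `D` has at least `S / (A * D ^ 2 * log₂ (D + 1) ^ 8) - 1` NOT gates. -/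
theorem result : ∃ A : ℝ, ∀ (S : ℕ) (D : ℝ), 2 ≤ S → Real.logb 2 S ≤ D →
    ∃ (n : ℕ) (M : Circuit n), M.size ≤ S ∧ M.nots = 0 ∧
      ∀ F : Fm n, (∀ x, F.eval x = M.eval x) → (F.depth : ℝ) ≤ D →
        (S : ℝ) ≤ A * D ^ 2 * (Real.logb 2 (D + 1)) ^ 8 * (F.nots + 1) := by
  obtain ⟨A, hA⟩ := NegOr.all_sharp
  refine ⟨A, fun S D hS hD => ?_⟩
  obtain ⟨n, M, h1, h2, _, _, h5⟩ := hA S D hS hD
  exact ⟨n, M, h1, h2, h5⟩

end Pool.Agent.Results.MP_7713c5_lc.FormulaNotGates
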