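import Pool.Agent.NegOr.Sharp

/-!
A monotone circuit of size `S` that is not determined by few monotone queries of small depth, and
whose equivalent circuits of small depth need `log₂ S - O(log D)` NOT gates.
-/

namespace Pool.Agent.Results.MP_7713c5_lc.MonotoneQueries

open Pool.Agent.BoolCirc

/-- There is a constant `A` such that for every `S ≥ 2` and every real `D ≥ log₂ S`, with
`B = A * D * log₂ (D + 1) ^ 8`, there is a circuit `M` with at most `S` gates and no NOT gates such
that

* if the value of `M` is determined by monotone queries of depth at most `D` in rounds with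
  `w₁, …, w_T` queries, then `S ≤ B * (w₁ + 1) ⋯ (w_T + 1)`;
* for every equivalent circuit `C` of depth at most `D` and every `h`, with `T` the number of NOT
  gates from which some directed path to the output passes at least `h` further gates:
  `S ≤ B * 2 ^ (T + h)`, and if no directed path contains more than `r` NOT gates, then
  `S ≤ B * 2 ^ h * (1 + T / r) ^ r`. -/
theorem result : ∃ A : ℝ, ∀ (S : ℕ) (D : ℝ), 2 ≤ S → Real.logb 2 S ≤ D →
    ∃ (n : ℕ) (M : Circuit n), M.size ≤ S ∧ M.nots = 0 ∧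
      (∀ (d : ℕ) (ws : List ℕ), (d : ℝ) ≤ D → Queries d M.eval ws Set.univ →
        (S : ℝ) ≤ A * D * (Real.logb 2 (D + 1)) ^ 8 * ((ws.map (fun w => w + 1)).prod : ℕ)) ∧
      ∀ C : Circuit n, (∀ x, C.eval x = M.eval x) → (C.depth : ℝ) ≤ D → ∀ h : ℕ,
        (S : ℝ) ≤ A * D * (Real.logb 2 (D + 1)) ^ 8 * 2 ^ (C.deepNots h + h) ∧
        ∀ r : ℕ, (∀ j, C.notLevel j ≤ r) →
          (S : ℝ) ≤ A * D * (Real.logb 2 (D + 1)) ^ 8 *
            (2 ^ h * (1 + (C.deepNots h : ℝ) / r) ^ r) := by
  obtain ⟨A, hA⟩ := NegOr.all_sharp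
  refine ⟨A, fun S D hS hD => ?_⟩
  obtain ⟨n, M, h1, h2, h3, h4, _⟩ := hA S D hS hD
  exact ⟨n, M, h1, h2, h3, h4⟩

end Pool.Agent.Results.MP_7713c5_lc.MonotoneQueries
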