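import Pool.Agent.NegVar.Clean
import Pool.Agent.NegVar.Strong

/-!
The number of negated inputs and Q1 of MP_7713c5_lc. An input `v` occurs negatively in a circuit if
some directed path from `v` to the output passes through an odd number of NOT gates.

Let `Q k` be Q1 with depth bound `c (log S)^k` and let `QPos k u` be `Q k` with a protected set of
at most `u S` inputs which do not occur negatively in the given circuit (of size `S`) and must not
occur negatively in the new one. If `u S = O(log S)`, then `QPos k u` is equivalent to `Q k`. If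
`u S` is at least `(log S)^k (log log S)^9` for infinitely many `S`, then `QPos k u` is false.
Moreover there are monotone circuits all of whose equivalents of small depth negate almost all of
a large set of inputs.
-/

namespace Pool.Agent.Results.MP_7713c5_lc.NegatedInputs

open Pool.Agent.BoolCirc

/-- Q1 of MP_7713c5_lc with `c (log S)^k` in place of `c log S`; `Q 1` is Q1 -/
def Q (k : ℕ) : Prop := ∃ c : ℕ, 1 ≤ c ∧ ∀ (n : ℕ) (C : Circuit n), 2 ≤ C.size →
  ∃ C' : Circuit n, (∀ x, C'.eval x = C.eval x) ∧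
    (C'.depth : ℝ) ≤ c * (Real.logb 2 C.size) ^ k ∧ C'.size ≤ C.size ^ c

/-- `Q k` with a set `P` of at most `u S` inputs that occur negatively neither in the given circuit
of size `S` nor in the new circuit -/
def QPos (k : ℕ) (u : ℕ → ℕ) : Prop := ∃ c : ℕ, 1 ≤ c ∧ ∀ (n : ℕ) (C : Circuit n), 2 ≤ C.size →
  ∀ P : Finset (Fin n), P.card ≤ u C.size → (∀ v ∈ P, ¬ C.NegOccurs v) →
    ∃ C' : Circuit n, (∀ x, C'.eval x = C.eval x) ∧ (∀ v ∈ P, ¬ C'.NegOccurs v) ∧
      (C'.depth : ℝ) ≤ c * (Real.logb 2 C.size) ^ k ∧ C'.size ≤ C.size ^ c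

theorem one_le_logb {S : ℕ} (hS : 2 ≤ S) : 1 ≤ Real.logb 2 (S : ℝ) := by
  have hS' : (2 : ℝ) ≤ S := by exact_mod_cast hS
  rw [Real.le_logb_iff_rpow_le (by norm_num) (by linarith)]
  simpa using hS'

theorem two_pow_le {S m a : ℕ} (hS : 2 ≤ S) (h : (m : ℝ) ≤ a * Real.logb 2 S) :
    2 ^ m ≤ S ^ a := by
  have hS0 : (0 : ℝ) < S := by exact_mod_cast (by omega : 0 < S)
  have h1 : ((2 ^ m : ℕ) : ℝ) ≤ ((S ^ a : ℕ) : ℝ) := by
    push_cast
    rw [← Real.logb_le_logb (b := 2) (by norm_num) (by positivity) (by positivity),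
      Real.logb_pow, Real.logb_pow, Real.logb_self_eq_one (by norm_num), mul_one]
    exact h
  exact_mod_cast h1

theorem equivalence (k : ℕ) (hk : 1 ≤ k) (a : ℕ) (u : ℕ → ℕ)
    (hu : ∀ S, 2 ≤ S → (u S : ℝ) ≤ a * Real.logb 2 S) : QPos k u ↔ Q k := by
  constructor
  · rintro ⟨c, hc, H⟩
    refine ⟨c, hc, fun n C hS => ?_⟩
    obtain ⟨C', h1, _, h3, h4⟩ := H n C hS ∅ (by simp) (by simp)
    exact ⟨C', h1, h3, h4⟩
  · rintro ⟨c, hc, H⟩
    refine ⟨c + 2 * a + 4, by omega, fun n C hS P hP hneg => ?_⟩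
    obtain ⟨C₀, h1, h2, h3⟩ := H n C hS
    have hL := one_le_logb hS
    have hLk : Real.logb 2 (C.size : ℝ) ≤ (Real.logb 2 (C.size : ℝ)) ^ k :=
      le_self_pow₀ hL (by omega)
    obtain ⟨C', f1, f2, f3, f4⟩ := protect_circuit P C.eval C₀.depth C₀.size
      (fun T => ⟨C₀, le_rfl, le_rfl, fun x => h1 _⟩)
      (fun q hq y hy => mono_of_not_neg C P hneg q hq y hy)
    have hPa : (P.card : ℝ) ≤ a * Real.logb 2 C.size :=
      le_trans (by exact_mod_cast hP) (hu C.size hS)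
    refine ⟨C', f1, f4, ?_, ?_⟩
    · have h5 : (C'.depth : ℝ) ≤ C₀.depth + 1 + 2 * P.card := by exact_mod_cast f2
      have h6 : (a : ℝ) * Real.logb 2 C.size ≤ a * (Real.logb 2 (C.size : ℝ)) ^ k :=
        mul_le_mul_of_nonneg_left hLk (Nat.cast_nonneg _)
      push_cast
      nlinarith
    · have h5 := two_pow_le hS hPa
      have h6 : 9 ≤ C.size ^ 4 := by
        calc 9 ≤ 2 ^ 4 := by norm_num
          _ ≤ C.size ^ 4 := Nat.pow_le_pow_left hS 4
      have h7 : 1 ≤ C.size ^ c := Nat.one_le_pow _ _ (by omega)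
      calc C'.size ≤ 2 ^ P.card * (6 * C₀.size + 3) := f3
        _ ≤ C.size ^ a * (C.size ^ 4 * C.size ^ c) := Nat.mul_le_mul h5 (by nlinarith)
        _ = C.size ^ (a + (4 + c)) := by rw [← pow_add, ← pow_add]
        _ ≤ C.size ^ (c + 2 * a + 4) := Nat.pow_le_pow_right (by omega) (by omega)

theorem failure {K : ℕ} (hK : StrongMono K) (k : ℕ) (u : ℕ → ℕ)
    (hu : ∀ N : ℕ, ∃ S, N ≤ S ∧
      (Real.logb 2 S) ^ k * (Real.logb 2 (Real.logb 2 S)) ^ 9 ≤ u S) : ¬ QPos k u := by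
  rintro ⟨c, hc, H⟩
  obtain ⟨N, hN⟩ := numerics K c k hc
  obtain ⟨S, hS, hSu⟩ := hu N
  obtain ⟨hS2, hvar, hsq⟩ := hN S hS
  have hx1 : 1 ≤ Real.logb 2 (S : ℝ) := one_le_logb hS2
  obtain ⟨D, hD⟩ : ∃ D, D = ⌊(c : ℝ) * (Real.logb 2 S) ^ k⌋₊ := ⟨_, rfl⟩
  rw [← hD] at hvar
  have hsize : 8 * (hvars K D) ^ 2 ≤ S := by
    have h1 : ((8 * (hvars K D) ^ 2 : ℕ) : ℝ) ≤ (S : ℝ) := by
      push_cast
      exact le_trans (mul_le_mul_of_nonneg_left
        (pow_le_pow_left₀ (Nat.cast_nonneg _) hvar 2) (by norm_num)) hsq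
    exact_mod_cast h1
  obtain ⟨n, M, P, m1, m2, m3, m4⟩ := hard_protected_sharp hK D S hsize
  have hP : P.card ≤ u S := by
    have h1 : ((P.card : ℕ) : ℝ) ≤ (u S : ℝ) :=
      le_trans (by exact_mod_cast m3) (hvar.trans hSu)
    exact_mod_cast h1
  obtain ⟨C', f1, f2, f3, _⟩ := H n M (by omega) P (by rw [m1]; exact hP)
    (fun v _ => not_neg_of_nots M m2 v)
  have h1 := m4 C' f1 f2
  rw [m1] at f3
  have h2 : C'.depth ≤ D := by
    rw [hD]
    exact Nat.le_floor f3
  omega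

open Classical in
/-- (1) For `u S = O(log S)` and `k ≥ 1` the question with `u S` protected inputs is equivalent to
the question without protected inputs. (2) If `u S ≥ (log S)^k (log log S)^9` for infinitely many
`S`, the question with `u S` protected inputs has a negative answer. (3) There is a constant `K`
such that for `2 ≤ S ≤ 2^D` there are a circuit without NOT gates, of size at most `S`, and a set of
at least `S / B` of its inputs, `B = K D (log D + 1)^8`, such that in every equivalent circuit of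
depth at most `D` all inputs of the set except at most `B` occur negatively. -/
theorem result :
    (∀ k : ℕ, 1 ≤ k → ∀ (a : ℕ) (u : ℕ → ℕ), (∀ S, 2 ≤ S → (u S : ℝ) ≤ a * Real.logb 2 S) →
      (QPos k u ↔ Q k)) ∧
    (∀ (k : ℕ) (u : ℕ → ℕ), (∀ N : ℕ, ∃ S, N ≤ S ∧
      (Real.logb 2 S) ^ k * (Real.logb 2 (Real.logb 2 S)) ^ 9 ≤ u S) → ¬ QPos k u) ∧
    (∃ K : ℕ, ∀ S D : ℕ, 2 ≤ S → S ≤ 2 ^ D →
      ∃ (n : ℕ) (M : Circuit n) (X : Finset (Fin n)),
        S ≤ X.card * (K * D * (Nat.log 2 D + 1) ^ 8) ∧ M.size ≤ S ∧ M.nots = 0 ∧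
        ∀ C : Circuit n, (∀ x, C.eval x = M.eval x) → C.depth ≤ D →
          (X.filter (fun v => ¬ C.NegOccurs v)).card ≤ K * D * (Nat.log 2 D + 1) ^ 8) := by
  obtain ⟨K, hK⟩ := exists_strongMono
  refine ⟨equivalence, failure hK, 8192 * (K + 1), fun S D hS hD => ?_⟩
  exact neg_inputs_sharp hK S D hS hD

end Pool.Agent.Results.MP_7713c5_lc.NegatedInputs
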