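import Mathlib
import Pool.Agent.BoolCirc.Pad
import Pool.Agent.NegThr.U
import Pool.Agent.NegThr.W5
import Pool.Agent.NegThr.PL11

/-!
The number of NOT gates and Q1 of MP_7713c5_lc. Let `Q k` be Q1 with depth bound `c (log S)^k`. For
circuits with `n` inputs and at most `t` NOT gates let `gap n t = n + 2 - 2 ^ (t + 1)`. If the gap is
bounded, then `Q k` restricted to circuits with at most `τ n` NOT gates (for both circuits) is
equivalent to `Q k`; if the gap grows faster than `(log n)^k (1 + log log n)^8` on some sequence of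
`n`, then the restricted statement is false.
-/

namespace Pool.Agent.Results.MP_7713c5_lc.NotGateThreshold

open Pool.Agent.BoolCirc

/-- Q1 of MP_7713c5_lc with `c (log S)^k` in place of `c log S`; `Q 1` is Q1 -/
def Q (k : ℕ) : Prop := ∃ c : ℕ, 1 ≤ c ∧ ∀ (n : ℕ) (C : Circuit n), 2 ≤ C.size →
  ∃ C' : Circuit n, (∀ x, C'.eval x = C.eval x) ∧
    (C'.depth : ℝ) ≤ c * (Real.logb 2 C.size) ^ k ∧ C'.size ≤ C.size ^ c

/-- `Q k` with both circuits restricted to at most `τ n` NOT gates, `n` the number of inputs -/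
def QNot (k : ℕ) (τ : ℕ → ℕ) : Prop := ∃ c : ℕ, 1 ≤ c ∧ ∀ (n : ℕ) (C : Circuit n), 2 ≤ C.size →
  C.nots ≤ τ n → ∃ C' : Circuit n, (∀ x, C'.eval x = C.eval x) ∧ C'.nots ≤ τ n ∧
    (C'.depth : ℝ) ≤ c * (Real.logb 2 C.size) ^ k ∧ C'.size ≤ C.size ^ c

/-- the gap `max 0 (n + 2 - 2 ^ (t + 1))` -/
def gap (n t : ℕ) : ℕ := n + 2 - 2 ^ (t + 1)

/-- `Q k` for circuits with at most `t` NOT gates, for all `t` at once, with a loss of a factor
`gap n t + 1` -/
def QLoss (k : ℕ) : Prop := ∃ c : ℕ, 1 ≤ c ∧ ∀ (n t : ℕ) (C : Circuit n), 2 ≤ C.size →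
  C.nots ≤ t → ∃ C' : Circuit n, (∀ x, C'.eval x = C.eval x) ∧ C'.nots ≤ t ∧
    (C'.depth : ℝ) ≤ c * (gap n t + 1 : ℕ) * (Real.logb 2 C.size) ^ k ∧
    C'.size ≤ C.size ^ (c * (gap n t + 1))

theorem nots_le_size {n : ℕ} (C : Circuit n) : C.nots ≤ C.size := by
  unfold Circuit.nots
  exact (Finset.card_filter_le _ _).trans (by simp)

theorem one_le_logb {S : ℕ} (hS : 2 ≤ S) : 1 ≤ Real.logb 2 (S : ℝ) := by
  have hS' : (2 : ℝ) ≤ S := by exact_mod_cast hS
  rw [Real.le_logb_iff_rpow_le (by norm_num) (by linarith)]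
  simpa using hS'

theorem logb_le_of_le_pow {A S c : ℕ} (hA : 2 ≤ A) (h : A ≤ S ^ c) :
    Real.logb 2 (A : ℝ) ≤ c * Real.logb 2 (S : ℝ) := by
  have h1 : (A : ℝ) ≤ (S : ℝ) ^ c := by exact_mod_cast h
  have h2 : (0 : ℝ) < A := by exact_mod_cast (by omega : 0 < A)
  have h3 := Real.logb_le_logb_of_le (by norm_num : (1 : ℝ) < 2) h2 h1
  rwa [Real.logb_pow] at h3

theorem clog_le {S : ℕ} (hS : 2 ≤ S) : (Nat.clog 2 S : ℝ) ≤ 2 * Real.logb 2 (S : ℝ) := by
  have h1 := one_le_logb hS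
  have h2 : 2 ^ (Nat.clog 2 S - 1) < S := by
    have := Nat.pow_pred_clog_lt_self (b := 2) (by norm_num) (by omega : 1 < S)
    simpa using this
  have h3 : ((Nat.clog 2 S - 1 : ℕ) : ℝ) ≤ Real.logb 2 S := by
    rw [Real.le_logb_iff_rpow_le (by norm_num) (by positivity), Real.rpow_natCast]
    exact_mod_cast h2.le
  have h4 : (Nat.clog 2 S : ℝ) ≤ ((Nat.clog 2 S - 1 : ℕ) : ℝ) + 1 := by
    have : Nat.clog 2 S ≤ Nat.clog 2 S - 1 + 1 := by omega
    exact_mod_cast this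
  linarith

/-! ### Substitution keeps size, depth and the number of NOT gates -/

theorem sub_nots {m n : ℕ} (E : Circuit m) (σ : Fin m → Fin n ⊕ Bool) :
    (E.sub σ).nots = E.nots := by
  have h : ∀ i : Fin E.size, ((E.gate i).sub σ).isNot = (E.gate i).isNot := by
    intro i
    cases E.gate i <;> rfl
  show (Finset.univ.filter (fun i : Fin E.size => ((E.gate i).sub σ).isNot = true)).card =
    (Finset.univ.filter (fun i : Fin E.size => (E.gate i).isNot = true)).card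
  simp only [h]

theorem src_sub_depth {m n i : ℕ} (σ : Fin m → Fin n ⊕ Bool) (o : Src m i) (d : Fin i → ℕ) :
    (o.sub σ).depth d = o.depth d := by
  cases o with
  | input k =>
    simp only [Src.sub]
    cases σ k <;> rfl
  | const b => rfl
  | gate j => rfl

theorem sub_gateDepth {m n : ℕ} (E : Circuit m) (σ : Fin m → Fin n ⊕ Bool) :
    ∀ (i : ℕ) (hi : i < E.size), (E.sub σ).gateDepth ⟨i, hi⟩ = E.gateDepth ⟨i, hi⟩ := by
  intro i
  induction i using Nat.strong_induction_on with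
  | _ i ih =>
    intro hi
    rw [Circuit.gateDepth, Circuit.gateDepth]
    show ((E.gate ⟨i, hi⟩).sub σ).depth _ = _
    have h : (fun j : Fin i => (E.sub σ).gateDepth ⟨j.1, j.2.trans hi⟩) =
        (fun j : Fin i => E.gateDepth ⟨j.1, j.2.trans hi⟩) := by
      funext j
      exact ih j.1 j.2 (j.2.trans hi)
    rw [← h]
    cases E.gate ⟨i, hi⟩ <;> simp only [Gate.sub, Gate.depth, src_sub_depth]

theorem sub_depth {m n : ℕ} (E : Circuit m) (σ : Fin m → Fin n ⊕ Bool) :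
    (E.sub σ).depth = E.depth := by
  unfold Circuit.depth
  show (E.out.sub σ).depth _ = _
  rw [src_sub_depth]
  congr 1
  funext j
  exact sub_gateDepth E σ j.1 j.2

/-- the restriction of a circuit to its first inputs, the others are set to false -/
def down {n B : ℕ} (C : Circuit (n + B)) : Circuit n :=
  C.sub (fun i => if h : i.1 < n then Sum.inl ⟨i.1, h⟩ else Sum.inr false)

/-- additional inputs -/
def up {n : ℕ} (B : ℕ) (C : Circuit n) : Circuit (n + B) :=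
  C.sub (fun i => Sum.inl (Fin.castAdd B i))

theorem eval_up {n B : ℕ} (C : Circuit n) (y : Fin (n + B) → Bool) :
    (up B C).eval y = C.eval (fun i => y (Fin.castAdd B i)) := by
  unfold up
  rw [Circuit.eval_sub]
  rfl

theorem eval_down {n B : ℕ} (C : Circuit (n + B)) (x : Fin n → Bool) :
    (down C).eval x = C.eval (fun i => if h : i.1 < n then x ⟨i.1, h⟩ else false) := by
  unfold down
  rw [Circuit.eval_sub]
  congr 1
  funext i
  unfold subVal
  by_cases h : i.1 < n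
  · simp [h]
  · simp [h]

/-! ### The upper bounds -/

theorem gap_zero_of_le {n t : ℕ} (h : Nat.clog 2 ((n + 1) / 2 + 1) ≤ t) : gap n t = 0 := by
  unfold gap
  rw [Nat.clog_le_iff_le_pow (by norm_num)] at h
  have : 2 ^ (t + 1) = 2 * 2 ^ t := by rw [pow_succ]; ring
  omega

theorem clog_le_of_gap {n t : ℕ} (h : n + 2 ≤ 2 ^ (t + 1)) :
    Nat.clog 2 ((n + 1) / 2 + 1) ≤ t := by
  rw [Nat.clog_le_iff_le_pow (by norm_num)]
  have : 2 ^ (t + 1) = 2 * 2 ^ t := by rw [pow_succ]; ring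
  omega

/-- the constant circuit for no inputs, and the general case of small size -/
theorem small_case {n t : ℕ} (C₁ : Circuit n) (hlt : C₁.size < 2)
    (ht : Nat.clog 2 ((n + 1) / 2 + 1) ≤ t) :
    ∃ C' : Circuit n, (∀ x, C'.eval x = C₁.eval x) ∧ C'.nots ≤ t ∧ C'.depth ≤ 1 ∧ C'.size ≤ 1 := by
  rcases Nat.eq_zero_or_pos n with hn | hn
  · subst hn
    refine ⟨⟨0, fun i => i.elim0, Src.const (C₁.eval (fun i => i.elim0))⟩, fun x => ?_, ?_, ?_,
      Nat.zero_le _⟩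
    · have : x = (fun i => i.elim0) := funext fun i => i.elim0
      rw [this]; rfl
    · exact le_trans (nots_le_size _) (Nat.zero_le _)
    · exact Nat.zero_le _
  · refine ⟨C₁, fun _ => rfl, ?_, ?_, by omega⟩
    · have h4 : 1 ≤ Nat.clog 2 ((n + 1) / 2 + 1) := Nat.clog_pos (by norm_num) (by omega)
      have h5 := nots_le_size C₁
      omega
    · have := C₁.depth_le_size
      omega

theorem loss_of_Q (k : ℕ) (hk : 1 ≤ k) (hQ : Q k) : QLoss k := by
  obtain ⟨c₁, hU⟩ := universal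
  obtain ⟨c₂, hG⟩ := universal_gap
  obtain ⟨c, hc, H⟩ := hQ
  refine ⟨c + c * c₁ + c₂ * (c + 2) + c * c₂, by omega, fun n t C hS ht => ?_⟩
  have hS1 := one_le_logb hS
  have hL1 : 1 ≤ (Real.logb 2 (C.size : ℝ)) ^ k := one_le_pow₀ hS1
  have hLk : Real.logb 2 (C.size : ℝ) ≤ (Real.logb 2 (C.size : ℝ)) ^ k :=
    le_self_pow₀ hS1 (by omega)
  have hS0 : 0 < C.size := by omega
  have hc1 : (1 : ℝ) ≤ c := by exact_mod_cast hc
  have hc10 : (0 : ℝ) ≤ c₁ := Nat.cast_nonneg _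
  have hc20 : (0 : ℝ) ≤ c₂ := Nat.cast_nonneg _
  have hcc1 : (0 : ℝ) ≤ c * c₁ := by positivity
  have hcc2 : (0 : ℝ) ≤ c * c₂ := by positivity
  rcases Nat.lt_or_ge (2 ^ (t + 1)) (n + 3) with hgap | hgap
  · -- positive gap or gap zero with equality: the window construction
    set L : ℝ := Real.logb 2 (C.size : ℝ) with hLdef
    obtain ⟨d, hd⟩ : ∃ d : ℕ, d = ⌊(c : ℝ) * L ^ k⌋₊ := ⟨_, rfl⟩
    have hnodes : NodesLE C d (C.size ^ c) := by
      intro o
      obtain ⟨G, h1, h2, h3⟩ := H n ⟨C.size, C.gate, o⟩ hS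
      refine ⟨G, fun x => ?_, ?_, h3⟩
      · rw [h1 x]
        have hv : ∀ (i : ℕ) (hi : i < C.size),
            Circuit.val (⟨C.size, C.gate, o⟩ : Circuit n) x ⟨i, hi⟩ = C.val x ⟨i, hi⟩ := by
          intro i
          induction i using Nat.strong_induction_on with
          | _ i ih =>
            intro hi
            rw [Circuit.val, Circuit.val]
            congr 1
            funext j
            exact ih j.1 j.2 (j.2.trans hi)
        unfold Circuit.eval
        congr 1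
        funext j
        exact hv j.1 j.2
      · rw [hd]
        exact Nat.le_floor h2
    have hσ : C.size ≤ C.size ^ c := Nat.le_self_pow (by omega) _
    obtain ⟨C', h1, h2, h3, h4⟩ := hG n t d (C.size ^ c) C hS hσ ht (by omega) hnodes
    have hw : n + 3 - 2 ^ (t + 1) = gap n t + 1 := by unfold gap; omega
    rw [hw] at h3 h4
    refine ⟨C', h1, h2, ?_, ?_⟩
    · have h5 : (C'.depth : ℝ) ≤ c₂ * (gap n t + 1 : ℕ) * (d + Nat.clog 2 C.size : ℕ) := by
        exact_mod_cast h3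
      have h6 : ((d + Nat.clog 2 C.size : ℕ) : ℝ) ≤ (c + 2) * L ^ k := by
        have h7 : (d : ℝ) ≤ c * L ^ k := by
          rw [hd]
          exact Nat.floor_le (by positivity)
        have h8 := clog_le hS
        push_cast
        rw [← hLdef] at h8
        nlinarith
      have h9 : (0 : ℝ) ≤ c₂ * (gap n t + 1 : ℕ) := by positivity
      have h10 : (0 : ℝ) ≤ (gap n t + 1 : ℕ) * L ^ k := by positivity
      calc (C'.depth : ℝ) ≤ c₂ * (gap n t + 1 : ℕ) * ((c + 2) * L ^ k) :=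
            h5.trans (mul_le_mul_of_nonneg_left h6 h9)
        _ = (c₂ * (c + 2)) * ((gap n t + 1 : ℕ) * L ^ k) := by ring
        _ ≤ ((c + c * c₁ + c₂ * (c + 2) + c * c₂ : ℕ) : ℝ) * ((gap n t + 1 : ℕ) * L ^ k) := by
            apply mul_le_mul_of_nonneg_right _ h10
            push_cast
            nlinarith
        _ = _ := by ring
    · calc C'.size ≤ (C.size ^ c) ^ (c₂ * (gap n t + 1)) := h4
        _ = C.size ^ (c * (c₂ * (gap n t + 1))) := by rw [← pow_mul]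
        _ ≤ _ := by
            apply Nat.pow_le_pow_right hS0
            have : c * (c₂ * (gap n t + 1)) = (c * c₂) * (gap n t + 1) := by ring
            rw [this]
            exact Nat.mul_le_mul_right _ (by omega)
  · -- enough NOT gates
    have hgz : gap n t = 0 := by unfold gap; omega
    have hUt : Nat.clog 2 ((n + 1) / 2 + 1) ≤ t := clog_le_of_gap (by omega)
    rw [hgz]
    obtain ⟨C₁, h1, h2, h3⟩ := H n C hS
    rcases Nat.lt_or_ge C₁.size 2 with hlt | hge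
    · obtain ⟨C', h4, h5, h6, h7⟩ := small_case C₁ hlt hUt
      refine ⟨C', fun x => (h4 x).trans (h1 x), h5, ?_, ?_⟩
      · have h8 : (C'.depth : ℝ) ≤ 1 := by exact_mod_cast h6
        push_cast
        nlinarith [mul_nonneg hc20 (by linarith : (0:ℝ) ≤ c + 2)]
      · exact h7.trans (Nat.one_le_pow _ _ hS0)
    · obtain ⟨C', h4, h5, h6, h7⟩ := hU n C₁ hge
      refine ⟨C', fun x => (h4 x).trans (h1 x), h5.trans hUt, ?_, ?_⟩
      · have h8 := logb_le_of_le_pow hge h3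
        have h9 : (c₁ : ℝ) * Real.logb 2 C₁.size ≤ c₁ * (c * Real.logb 2 C.size) :=
          mul_le_mul_of_nonneg_left h8 (Nat.cast_nonneg _)
        have h10 : (c * c₁ : ℝ) * Real.logb 2 C.size ≤ c * c₁ * (Real.logb 2 C.size) ^ k :=
          mul_le_mul_of_nonneg_left hLk hcc1
        have h11 : (0 : ℝ) ≤ c₂ * (c + 2) := by positivity
        push_cast
        nlinarith
      · calc C'.size ≤ C₁.size ^ c₁ := h6
          _ ≤ (C.size ^ c) ^ c₁ := Nat.pow_le_pow_left h3 _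
          _ = C.size ^ (c * c₁) := by rw [← pow_mul]
          _ ≤ _ := Nat.pow_le_pow_right hS0 (by
            have : c * c₁ ≤ c + c * c₁ + c₂ * (c + 2) + c * c₂ := by omega
            simpa using this)

theorem Q_of_loss (k : ℕ) (hQ : QLoss k) : Q k := by
  obtain ⟨c, hc, H⟩ := hQ
  refine ⟨c, hc, fun n C hS => ?_⟩
  obtain ⟨C', h1, _, h3, h4⟩ := H n (max C.nots (Nat.clog 2 ((n + 1) / 2 + 1))) C hS
    (le_max_left _ _)
  have hg : gap n (max C.nots (Nat.clog 2 ((n + 1) / 2 + 1))) = 0 :=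
    gap_zero_of_le (le_max_right _ _)
  rw [hg] at h3 h4
  exact ⟨C', h1, by simpa using h3, by simpa using h4⟩

theorem QNot_of_Q (τ : ℕ → ℕ) (B : ℕ) (hB : ∀ n, gap n (τ n) ≤ B) (k : ℕ) (hk : 1 ≤ k)
    (hQ : Q k) : QNot k τ := by
  obtain ⟨c, hc, H⟩ := loss_of_Q k hk hQ
  refine ⟨c * (B + 1), by nlinarith, fun n C hS ht => ?_⟩
  obtain ⟨C', h1, h2, h3, h4⟩ := H n (τ n) C hS ht
  have hS1 := one_le_logb hS
  have hL0 : 0 ≤ (Real.logb 2 (C.size : ℝ)) ^ k := by positivity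
  refine ⟨C', h1, h2, h3.trans ?_, h4.trans ?_⟩
  · apply mul_le_mul_of_nonneg_right _ hL0
    have := hB n
    have h5 : ((gap n (τ n) + 1 : ℕ) : ℝ) ≤ ((B + 1 : ℕ) : ℝ) := by exact_mod_cast (by omega)
    push_cast at h5 ⊢
    exact mul_le_mul_of_nonneg_left h5 (Nat.cast_nonneg _)
  · exact Nat.pow_le_pow_right (by omega)
      (Nat.mul_le_mul_left _ (by have := hB n; omega))

theorem Q_of_QNot (τ : ℕ → ℕ) (B : ℕ) (hB : ∀ n, gap n (τ n) ≤ B) (k : ℕ)
    (hQ : QNot k τ) : Q k := by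
  obtain ⟨c₁, hU⟩ := universal
  obtain ⟨c, hc, H⟩ := hQ
  refine ⟨c * c₁ ^ k + c * c₁ + 1, by omega, fun n C hS => ?_⟩
  have hS1 := one_le_logb hS
  have hL1 : 1 ≤ (Real.logb 2 (C.size : ℝ)) ^ k := one_le_pow₀ hS1
  have hS0 : 0 < C.size := by omega
  obtain ⟨C₁, h1, h2, h3, _⟩ := hU n C hS
  have hcc : (0 : ℝ) ≤ c * c₁ := by positivity
  have hcck : (0 : ℝ) ≤ c * c₁ ^ k := by positivity
  rcases Nat.lt_or_ge C₁.size 2 with hlt | hge
  · refine ⟨C₁, h1, ?_, ?_⟩
    · have h5 : (C₁.depth : ℝ) ≤ 1 := by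
        have := C₁.depth_le_size
        exact_mod_cast (by omega : C₁.depth ≤ 1)
      push_cast
      nlinarith
    · exact le_trans (by omega : C₁.size ≤ 1) (Nat.one_le_pow _ _ hS0)
  · have hτ : Nat.clog 2 ((n + 1) / 2 + 1) ≤ τ (n + B) := by
      apply clog_le_of_gap
      have := hB (n + B)
      unfold gap at this
      omega
    obtain ⟨C', h4, _, h6, h7⟩ := H (n + B) (up B C₁) hge (by
      unfold up
      rw [sub_nots]
      exact h2.trans hτ)
    have h6' : (C'.depth : ℝ) ≤ c * (Real.logb 2 C₁.size) ^ k := h6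
    have h7' : C'.size ≤ C₁.size ^ c := h7
    refine ⟨down C', fun x => ?_, ?_, ?_⟩
    · rw [eval_down, h4, eval_up, ← h1 x]
      congr 1
      funext i
      simp
    · have h8 := logb_le_of_le_pow hge h3
      have h8' : (Real.logb 2 (C₁.size : ℝ)) ^ k ≤ c₁ ^ k * (Real.logb 2 (C.size : ℝ)) ^ k := by
        rw [← mul_pow]
        exact pow_le_pow_left₀ (by linarith [one_le_logb hge]) h8 k
      have h9 : (c : ℝ) * (Real.logb 2 C₁.size) ^ k ≤
          c * (c₁ ^ k * (Real.logb 2 C.size) ^ k) :=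
        mul_le_mul_of_nonneg_left h8' (Nat.cast_nonneg _)
      have h10 : (down C').depth = C'.depth := sub_depth _ _
      rw [h10]
      push_cast
      nlinarith
    · calc (down C').size = C'.size := rfl
        _ ≤ C₁.size ^ c := h7'
        _ ≤ (C.size ^ c₁) ^ c := Nat.pow_le_pow_left h3 _
        _ = C.size ^ (c * c₁) := by rw [← pow_mul, mul_comm]
        _ ≤ C.size ^ (c * c₁ ^ k + c * c₁ + 1) := Nat.pow_le_pow_right hS0 (by omega)

/-! ### The lower bound -/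

theorem exists_pow {x : ℝ} (hx : 1 ≤ x) : ∃ i : ℕ, x < 2 ^ i ∧ (2 : ℝ) ^ i ≤ 2 * x ∧
    (i : ℝ) ≤ 1 + Real.logb 2 x := by
  have hx0 : 0 < x := by linarith
  have hl0 : 0 ≤ Real.logb 2 x := Real.logb_nonneg (by norm_num) hx
  refine ⟨⌊Real.logb 2 x⌋₊ + 1, ?_, ?_, ?_⟩
  · rw [← Real.rpow_natCast, ← Real.logb_lt_iff_lt_rpow (by norm_num) hx0]
    push_cast
    exact Nat.lt_floor_add_one _
  · rw [pow_succ, mul_comm]
    apply mul_le_mul_of_nonneg_left _ (by norm_num)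
    rw [← Real.rpow_natCast, ← Real.le_logb_iff_rpow_le (by norm_num) hx0]
    exact Nat.floor_le hl0
  · push_cast
    have := Nat.floor_le hl0
    linarith

theorem logb_le_self {c : ℕ} (hc : 1 ≤ c) : Real.logb 2 (c : ℝ) ≤ c := by
  rw [Real.logb_le_iff_le_rpow (by norm_num) (by exact_mod_cast hc), Real.rpow_natCast]
  exact_mod_cast Nat.lt_two_pow_self.le

theorem failure (τ : ℕ → ℕ) (k : ℕ)
    (hτ : ∀ c : ℕ, ∃ n : ℕ, 2 ≤ n ∧ (c : ℝ) * (Real.logb 2 n) ^ k *
      (1 + Real.logb 2 (Real.logb 2 n)) ^ 8 < gap n (τ n)) :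
    ¬ QNot k τ := by
  rintro ⟨c, hc, H⟩
  obtain ⟨K, hL⟩ := gap_lower_strong
  obtain ⟨n, hn2, hn⟩ := hτ (K * (2 * c * 8 ^ k) * (2 + c + 3 * k) ^ 8)
  have hn2' : (2 : ℝ) ≤ n := by exact_mod_cast hn2
  have hnpos : (0 : ℝ) < n := by linarith
  set L : ℝ := Real.logb 2 (n : ℝ) with hLdef
  have hlog : 1 ≤ L := one_le_logb hn2
  have hll : 0 ≤ Real.logb 2 L := Real.logb_nonneg (by norm_num) hlog
  have hc1 : (1 : ℝ) ≤ c := by exact_mod_cast hc
  have hx : 1 ≤ (c : ℝ) * (8 * L) ^ k :=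
    one_le_mul_of_one_le_of_one_le hc1 (one_le_pow₀ (by linarith))
  obtain ⟨i, hi1, hi2, hi3⟩ := exists_pow hx
  have hlx : Real.logb 2 ((c : ℝ) * (8 * L) ^ k) ≤ c + 3 * k + k * Real.logb 2 L := by
    rw [Real.logb_mul (by positivity) (by positivity), Real.logb_pow,
      Real.logb_mul (by norm_num) (by positivity)]
    have h8 : Real.logb 2 (8 : ℝ) = 3 := by
      rw [show (8 : ℝ) = 2 ^ (3 : ℕ) by norm_num, Real.logb_pow]
      simp
    rw [h8]
    have := logb_le_self hc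
    linarith
  have hi4 : (i : ℝ) + 1 ≤ (2 + c + 3 * k) * (1 + Real.logb 2 L) := by
    have hk0 : (0 : ℝ) ≤ k := Nat.cast_nonneg _
    nlinarith [mul_nonneg hk0 hll, mul_nonneg (by linarith : (0 : ℝ) ≤ c) hll]
  have hi5 : ((i : ℝ) + 1) ^ 8 ≤ ((2 + c + 3 * k) * (1 + Real.logb 2 L)) ^ 8 :=
    pow_le_pow_left₀ (by positivity) hi4 8
  have hkey : (K : ℝ) * 2 ^ i * ((i : ℝ) + 1) ^ 8 ≤
      ((K * (2 * c * 8 ^ k) * (2 + c + 3 * k) ^ 8 : ℕ) : ℝ) * L ^ k *
        (1 + Real.logb 2 L) ^ 8 := by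
    calc (K : ℝ) * 2 ^ i * ((i : ℝ) + 1) ^ 8 ≤ K * (2 * (c * (8 * L) ^ k)) *
          ((2 + c + 3 * k) * (1 + Real.logb 2 L)) ^ 8 := by
            apply mul_le_mul _ hi5 (by positivity) (by positivity)
            exact mul_le_mul_of_nonneg_left hi2 (Nat.cast_nonneg _)
      _ = _ := by
          push_cast
          rw [mul_pow 8 L, mul_pow _ (1 + Real.logb 2 L)]
          ring
  have hg : K * 2 ^ i * (i + 1) ^ 8 ≤ n + 2 - 2 ^ (τ n + 1) := by
    have h1 : ((K * 2 ^ i * (i + 1) ^ 8 : ℕ) : ℝ) ≤ gap n (τ n) := by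
      push_cast
      linarith
    exact_mod_cast h1
  obtain ⟨C, h1, h2, h3, h4⟩ := hL n (τ n) i hg
  obtain ⟨C', h5, h6, h7, _⟩ := H n C h1 h3
  have h8 := h4 C' h5 h6
  have hsz : Real.logb 2 C.size ≤ 8 * L := by
    have h9 : (C.size : ℝ) ≤ 128 * n := by
      have : (C.size : ℝ) ≤ 100 * n := by exact_mod_cast h2
      linarith
    have h10 : (0 : ℝ) < C.size := by exact_mod_cast (by omega : 0 < C.size)
    calc Real.logb 2 C.size ≤ Real.logb 2 (128 * n) :=
          Real.logb_le_logb_of_le (by norm_num) h10 h9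
      _ = Real.logb 2 128 + Real.logb 2 n := Real.logb_mul (by norm_num) hnpos.ne'
      _ = 7 + Real.logb 2 n := by
          congr 1
          rw [show (128 : ℝ) = 2 ^ (7 : ℕ) by norm_num, Real.logb_pow]
          simp
      _ ≤ 8 * L := by rw [← hLdef]; linarith
  have h11 : (C'.depth : ℝ) ≤ c * (8 * L) ^ k :=
    h7.trans (mul_le_mul_of_nonneg_left
      (pow_le_pow_left₀ (by linarith [one_le_logb h1]) hsz k) (Nat.cast_nonneg _))
  have h12 : (2 : ℝ) ^ i ≤ C'.depth := by exact_mod_cast h8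
  linarith

theorem gap_depth : ∃ K : ℕ, ∀ n t : ℕ, K ≤ gap n t →
    ∃ C : Circuit n, 2 ≤ C.size ∧ C.size ≤ 100 * n ∧ C.nots ≤ t ∧
      ∀ D : Circuit n, (∀ x, D.eval x = C.eval x) → D.nots ≤ t →
        (gap n t : ℝ) ≤ K * (Real.logb 2 (gap n t)) ^ 8 * D.depth := by
  obtain ⟨K, hL⟩ := gap_lower_strong
  refine ⟨2 * (K + 1) * 3 ^ 8, fun n t hg => ?_⟩
  obtain ⟨g, hgdef⟩ : ∃ g, g = gap n t := ⟨_, rfl⟩
  rw [← hgdef] at hg ⊢
  have hKg : K + 1 ≤ g := by omega
  have hg2 : 2 ≤ g := by omega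
  have hex : ∃ i, g < (K + 1) * 2 ^ i * (i + 1) ^ 8 := ⟨g, by
    calc g < 2 ^ g := Nat.lt_two_pow_self
      _ = 1 * 2 ^ g * 1 := by ring
      _ ≤ (K + 1) * 2 ^ g * (g + 1) ^ 8 :=
        Nat.mul_le_mul (Nat.mul_le_mul_right _ (by omega)) (Nat.one_le_pow _ _ (by omega))⟩
  classical
  obtain ⟨i, hi⟩ : ∃ i, Nat.find hex = i + 1 := by
    rcases Nat.eq_zero_or_pos (Nat.find hex) with h0 | h0
    · have h1 := Nat.find_spec hex
      rw [h0] at h1
      simp only [pow_zero, zero_add, one_pow, mul_one] at h1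
      omega
    · exact ⟨Nat.find hex - 1, by omega⟩
  have h1 : g < (K + 1) * 2 ^ (i + 1) * (i + 1 + 1) ^ 8 := by
    rw [← hi]
    exact Nat.find_spec hex
  have h2 : (K + 1) * 2 ^ i * (i + 1) ^ 8 ≤ g := by
    by_contra hlt
    push Not at hlt
    have := Nat.find_min' hex hlt
    omega
  have h3 : K * 2 ^ i * (i + 1) ^ 8 ≤ n + 2 - 2 ^ (t + 1) := by
    have h4 : K * 2 ^ i * (i + 1) ^ 8 ≤ (K + 1) * 2 ^ i * (i + 1) ^ 8 :=
      Nat.mul_le_mul_right _ (Nat.mul_le_mul_right _ (by omega))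
    exact (h4.trans h2).trans hgdef.le
  obtain ⟨C, c1, c2, c3, c4⟩ := hL n t i h3
  refine ⟨C, c1, c2, c3, fun D hD hDn => ?_⟩
  have h5 := c4 D hD hDn
  have h6 : (2 : ℝ) ^ i ≤ D.depth := by exact_mod_cast h5
  have hlg : 1 ≤ Real.logb 2 (g : ℝ) := one_le_logb hg2
  have h7 : (i : ℝ) ≤ Real.logb 2 (g : ℝ) := by
    rw [Real.le_logb_iff_rpow_le (by norm_num) (by exact_mod_cast (by omega : 0 < g)),
      Real.rpow_natCast]
    have h8 : 2 ^ i ≤ g := by
      refine le_trans ?_ h2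
      calc 2 ^ i = 1 * 2 ^ i * 1 := by ring
        _ ≤ (K + 1) * 2 ^ i * (i + 1) ^ 8 :=
          Nat.mul_le_mul (Nat.mul_le_mul_right _ (by omega)) (Nat.one_le_pow _ _ (by omega))
    exact_mod_cast h8
  have h9 : ((i : ℝ) + 1 + 1) ^ 8 ≤ (3 * Real.logb 2 (g : ℝ)) ^ 8 :=
    pow_le_pow_left₀ (by positivity) (by linarith) 8
  have h10 : (g : ℝ) ≤ ((K : ℝ) + 1) * 2 ^ (i + 1) * ((i : ℝ) + 1 + 1) ^ 8 := by
    exact_mod_cast h1.le
  calc (g : ℝ) ≤ ((K : ℝ) + 1) * 2 ^ (i + 1) * ((i : ℝ) + 1 + 1) ^ 8 := h10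
    _ ≤ ((K : ℝ) + 1) * (2 * D.depth) * (3 * Real.logb 2 (g : ℝ)) ^ 8 := by
        apply mul_le_mul _ h9 (by positivity) (by positivity)
        apply mul_le_mul_of_nonneg_left _ (by positivity)
        rw [pow_succ]
        linarith
    _ = _ := by
        push_cast
        ring

/-- `gap n t = max 0 (n + 2 - 2 ^ (t + 1))`. (1) If `gap n (τ n)` is bounded, then `Q k` with at
most `τ n` NOT gates is equivalent to `Q k` (Q1 for `k = 1`). (2) If `gap n (τ n)` is not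
`O((log n)^k (1 + log log n)^8)`, it is false. (3) `Q k` is equivalent to its version for all
numbers `t` of NOT gates with a loss of a factor `gap n t + 1` in depth and in the exponent of the
size. (4) The loss in the depth is necessary up to the factor `K (log (gap n t))^8`: if
`gap n t` is large there is a circuit with `n` inputs, at most `t` NOT gates and at most `100 n`
gates such that every equivalent circuit with at most `t` NOT gates has depth at least
`gap n t / (K (log (gap n t))^8)`. -/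
theorem result :
    (∀ τ : ℕ → ℕ, (∃ B, ∀ n, gap n (τ n) ≤ B) → ∀ k, 1 ≤ k → (QNot k τ ↔ Q k)) ∧
    (∀ (τ : ℕ → ℕ) (k : ℕ),
      (∀ c : ℕ, ∃ n : ℕ, 2 ≤ n ∧ (c : ℝ) * (Real.logb 2 n) ^ k *
        (1 + Real.logb 2 (Real.logb 2 n)) ^ 8 < gap n (τ n)) →
      ¬ QNot k τ) ∧
    (∀ k, 1 ≤ k → (Q k ↔ QLoss k)) ∧
    (∃ K : ℕ, ∀ n t : ℕ, K ≤ gap n t →
      ∃ C : Circuit n, 2 ≤ C.size ∧ C.size ≤ 100 * n ∧ C.nots ≤ t ∧
        ∀ D : Circuit n, (∀ x, D.eval x = C.eval x) → D.nots ≤ t →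
          (gap n t : ℝ) ≤ K * (Real.logb 2 (gap n t)) ^ 8 * D.depth) :=
  ⟨fun τ ⟨B, hB⟩ k hk => ⟨Q_of_QNot τ B hB k, QNot_of_Q τ B hB k hk⟩, failure,
    fun k hk => ⟨loss_of_Q k hk, Q_of_loss k⟩, gap_depth⟩

end Pool.Agent.Results.MP_7713c5_lc.NotGateThreshold
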